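import Pool.Agent.H481.OB5

/-!
# Vanishing at the centre and the densities of the low-lying zeros

The quadratic twists of a fixed form for which the sign of the functional equation is `+1` are
expected to behave like the matrices of `SO(2N)`, and the problem is whether almost all of them do
not vanish at the centre.  One of the main tools are the (one- and many-level) densities of the
low-lying zeros, for test functions whose Fourier transform has its support in a limited range
(Iwaniec, Luo and Sarnak; Rubinstein; Hughes and Rudnick).  We find how much all these densities can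
tell about the vanishing at the centre, in the random matrix model.

A matrix of `SO(2N)` has the eigenvalues `e^{± i θ_1}, …, e^{± i θ_N}`, and the model for a family
with even sign is a random point `x = (cos θ_1, …, cos θ_N)`; the family vanishes at the centre if
some `x_j` is `1`.  All densities of range `R` are the means of the polynomials in `x` of total
degree at most `R` (`R = 2 N σ` for the support `(-σ, σ)`).

Suppose that these are the means for the group `SO(2N)`.

* If `R ≥ 2 N - 3`, the mean number of the `j` with `x_j = 1`, and so the probability of the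
  vanishing at the centre, is at most `(2N-1)/(R+1) - N(N-1)/(R+1)²` (about `1/σ - 1/(4σ²)`).
* For every `R` there is a random `x` with these means, with different `x_j`, for which the
  probability of the vanishing at the centre is `(2N-1)/(2N-1+R)` (about `1/(1+σ)`).

For `N = 1` both are `1/(R+1)`.  So no finite range of densities of all levels gives the
non-vanishing of almost all members of the family; the proportion of the non-vanishing which
follows from the densities of range `σ` is `1 - c/σ` with `c → 1` for `σ → ∞`.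
-/

open MeasureTheory

namespace Pool.Agent.Results.MP_17f4cb_nt.CentralVanishing

/-- the mean of `f(cos θ_1, …, cos θ_N)` over the group `SO(2N)`, by Weyl's formula: the density
of the eigenangles `θ_j ∈ (0, π]` is proportional to `∏_{i < j} (cos θ_j - cos θ_i)²` -/
noncomputable def groupMean (N : ℕ) (f : (Fin N → ℝ) → ℝ) : ℝ :=
  (∫ θ in Set.univ.pi fun _ : Fin N => Set.Ioc (0 : ℝ) Real.pi,
      f (fun j => Real.cos (θ j)) *
        ∏ i : Fin N, ∏ j ∈ Finset.Ioi i, (Real.cos (θ j) - Real.cos (θ i)) ^ 2) /
    ∫ θ in Set.univ.pi fun _ : Fin N => Set.Ioc (0 : ℝ) Real.pi,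
      ∏ i : Fin N, ∏ j ∈ Finset.Ioi i, (Real.cos (θ j) - Real.cos (θ i)) ^ 2

/-- `ν` is the law of a random point `x` of `[-1, 1]^N` for which all polynomials of total degree
at most `R` have the same mean as for `SO(2N)` -/
structure Agrees (N R : ℕ) (ν : Measure (Fin N → ℝ)) : Prop where
  prob : IsProbabilityMeasure ν
  range : ∀ᵐ x ∂ν, ∀ j, -1 ≤ x j ∧ x j ≤ 1
  moments : ∀ F : MvPolynomial (Fin N) ℝ, F.totalDegree ≤ R →
    ∫ x, MvPolynomial.eval x F ∂ν = groupMean N (fun x => MvPolynomial.eval x F)

/-- the number of the `j` with `x_j = 1` -/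
noncomputable def central {N : ℕ} (x : Fin N → ℝ) : ℝ := ∑ j, if x j = 1 then (1 : ℝ) else 0

/-- **Theorem.** Let `N ≥ 1` and `R ≥ 0`.
(1) If `R ≥ 2 N - 3`, then for all laws with the means of range `R` of `SO(2N)` the probability that
some `x_j` is `1` is at most the mean number of these `j`, and this is at most
`(2 N - 1) / (R + 1) - N (N - 1) / (R + 1)²`.
(2) There is a law with the means of range `R` of `SO(2N)`, with almost surely different `x_j`, for
which the probability that some `x_j` is `1` is `(2 N - 1) / (2 N - 1 + R)`.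
(3) For `N = 1` the largest possible probability is `1 / (R + 1)`. -/
theorem result (N : ℕ) (hN : 1 ≤ N) :
    (∀ R : ℕ, 2 * N ≤ R + 3 → ∀ ν : Measure (Fin N → ℝ), Agrees N R ν →
      (ν {x | ∃ j, x j = 1}).toReal ≤ ∫ x, central x ∂ν ∧
      ∫ x, central x ∂ν ≤ (2 * N - 1) / ((R : ℝ) + 1) - N * (N - 1) / ((R : ℝ) + 1) ^ 2) ∧
    (∀ R : ℕ, ∃ ν : Measure (Fin N → ℝ), Agrees N R ν ∧
      (∀ᵐ x ∂ν, Function.Injective x) ∧
      (ν {x | ∃ j, x j = 1}).toReal = (2 * N - 1) / (2 * (N : ℝ) - 1 + R)) ∧
    (N = 1 → ∀ R : ℕ, IsGreatest {p : ℝ | ∃ ν : Measure (Fin N → ℝ), Agrees N R ν ∧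
      p = (ν {x | ∃ j, x j = 1}).toReal} (1 / ((R : ℝ) + 1))) := by
  have hms : MeasurableSet {x : Fin N → ℝ | ∃ j, x j = 1} := by
    have : {x : Fin N → ℝ | ∃ j, x j = 1} = ⋃ j, {x : Fin N → ℝ | x j = 1} := by
      ext x
      simp
    rw [this]
    exact MeasurableSet.iUnion fun j =>
      measurableSet_eq_fun (measurable_pi_apply j) measurable_const
  have part1 : ∀ R : ℕ, 2 * N ≤ R + 3 → ∀ ν : Measure (Fin N → ℝ), Agrees N R ν →
      (ν {x | ∃ j, x j = 1}).toReal ≤ ∫ x, central x ∂ν ∧
      ∫ x, central x ∂ν ≤ (2 * N - 1) / ((R : ℝ) + 1) - N * (N - 1) / ((R : ℝ) + 1) ^ 2 := by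
    intro R hR ν hν
    have := hν.prob
    refine ⟨?_, Pool.Agent.H481.OB.upper (by omega) hR hν.range hν.moments⟩
    have h1 : (ν {x | ∃ j, x j = 1}).toReal =
        ∫ x, Set.indicator {x : Fin N → ℝ | ∃ j, x j = 1} (fun _ => (1 : ℝ)) x ∂ν := by
      rw [integral_indicator hms, setIntegral_const, smul_eq_mul, mul_one]
      rfl
    rw [h1]
    refine integral_mono_ae ((integrable_const (1 : ℝ)).indicator hms)
      Pool.Agent.H481.OB.cnt_int (Filter.Eventually.of_forall fun x => ?_)
    by_cases h : ∃ j, x j = 1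
    · rw [Set.indicator_of_mem (by exact h)]
      obtain ⟨j, hj⟩ := h
      have h2 : (if x j = 1 then (1 : ℝ) else 0) ≤ central x :=
        Finset.single_le_sum (f := fun j => if x j = 1 then (1 : ℝ) else 0)
          (fun i _ => by split_ifs <;> norm_num) (Finset.mem_univ j)
      rw [if_pos hj] at h2
      exact h2
    · rw [Set.indicator_of_notMem (by exact h)]
      exact Pool.Agent.H481.OB.cnt_nonneg x
  have part2 : ∀ R : ℕ, ∃ ν : Measure (Fin N → ℝ), Agrees N R ν ∧
      (∀ᵐ x ∂ν, Function.Injective x) ∧
      (ν {x | ∃ j, x j = 1}).toReal = (2 * N - 1) / (2 * (N : ℝ) - 1 + R) := by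
    intro R
    have hM : 2 * N + R ≤ (2 * N - 1 + R) + 1 := by omega
    refine ⟨Pool.Agent.H481.OB.gl N (2 * N - 1 + R),
      ⟨Pool.Agent.H481.OB.gl_prob (by omega) (by omega), Pool.Agent.H481.OB.gl_range _,
        Pool.Agent.H481.OB.gl_mom (by omega) hM⟩, Pool.Agent.H481.OB.gl_distinct _, ?_⟩
    rw [Pool.Agent.H481.OB.gl_some (by omega) (by omega)]
    congr 1
    rw [Nat.cast_add, Nat.cast_sub (by omega)]
    push_cast
    ring
  refine ⟨part1, part2, fun h1 R => ?_⟩
  subst h1
  refine ⟨?_, ?_⟩
  · obtain ⟨ν, a1, -, a3⟩ := part2 R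
    refine ⟨ν, a1, ?_⟩
    rw [a3]
    push_cast
    congr 1
    · ring
    · ring
  · rintro p ⟨ν, hν, rfl⟩
    obtain ⟨b1, b2⟩ := part1 R (by omega) ν hν
    refine (b1.trans b2).trans (le_of_eq ?_)
    push_cast
    ring

end Pool.Agent.Results.MP_17f4cb_nt.CentralVanishing
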