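import Pool.Agent.H743.SN.One
import Pool.Agent.H743.JL.TP
import Pool.Agent.H743.X17.ECX
import Pool.Graph.R_pool_sql_team_seeded_63374d34.N916.GB.Num

/-!
# Non-vanishing of quadratic twists: all the quadratic twists of the curves of conductor 17, and
# simultaneous non-vanishing for several non-equivalent representations

For `j = 0, 1, 2, 3` let `π_j` be the cuspidal automorphic representation of `PGL₂(𝔸)` attached to the
elliptic curves of conductor `17` (`j = 0`), and to `X_0(15)`, `X_0(21)`, `X_0(24)` (`j = 1, 2, 3`), all without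
complex multiplication; for a squarefree integer `t` let `π_j^t` be the representation attached to the
quadratic twist by `t` (so `π_j^t = π_j ⊗ η_{ℚ(√t)}` for `t ≠ 1`).  The quadratic fields `E = ℚ(√m)`, `m ≠ 1`
squarefree, are counted by `|Δ_E|`.  `π_j^t ⊗ η_E` is attached to the elliptic curve with the minimal equation
`W j (tw t m)`, `tw t m` the squarefree part of `t m`, so `L(1/2, π_j^t ⊗ η_E)` is the value at `s = 1` of the
Hasse-Weil L-function of `W j (tw t m)`.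

(1) **Every twist of the conductor 17** (infinitely many representations `π = π_0^t`, `t` any squarefree
integer).  Among ALL the quadratic fields, real and imaginary, the proportion of the `E` with
`L(1/2, π ⊗ η_E) ≠ 0`, finite Mordell-Weil group and `Ш[2^∞] = 0` is EXACTLY
`c / 2 = 0.2097...`, `c = (1 - 1/2) (1 - 1/8) (1 - 1/32) ⋯`; so the lower limit of `N_π(x) / N(x)` is at least
`c / 2` (and the upper limit is at most `1 / 2`, the conjectured value).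

(2) **Every twist of `X_0(15)`, `X_0(21)`, `X_0(24)`** (`π = π_j^t`, `j = 1, 2, 3`, `t` any squarefree integer): the
lower limit of `N_π(x) / N(x)` is positive.

(3) **Several representations at the same time: the exact joint law.**  Let `T`, `T'` be finite sets of
squarefree integers, `S` a finite set of places and `E₀ = ℚ(√m₀)` such that the root numbers of all the
`π_0^t ⊗ η_{E₀}`, `t ∈ T`, are `1` and `t m₀ < 0` for `t ∈ T'`.  The set `𝒜` of the quadratic fields `E` with the same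
properties and with the same local components as `E₀` at `S` has positive lower density.  For
`E = ℚ(√m) ∈ 𝒜` consider the events: for `t ∈ T`, `L(1/2, π_0^t ⊗ η_E) ≠ 0` with finite Mordell-Weil group and
`Ш[2^∞] = 0`; for `t ∈ T'`, the field `ℚ(√(t m))` has no ideal class of order four, and for those
`j ∈ {1, 2, 3}` for which `t m` is in an explicit family (conditions at `2, 3, 5, 7, ∞`)
`L(1/2, π_j^t ⊗ η_E) ≠ 0` with finite Mordell-Weil group and `Ш[2^∞] = 0`.  These `#T + #T'` events are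
independent, with the probabilities `c` and `η = (1 - 1/2) (1 - 1/4) (1 - 1/8) ⋯ = 0.2887...`: every pattern has
exactly the product proportion in `𝒜`.  In particular the lower density in `𝒜` of the simultaneous
non-vanishing of all these central values is at least `c^#T η^#T'`.

(4) The upper density in `𝒜` (`T' = ∅`) of the fields `E` for which ALL the central values
`L(1/2, π_0^t ⊗ η_E)`, `t ∈ T`, are zero is at most `(1 - c)^#T`: it tends to zero exponentially with the number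
of the representations.

Proof: L-values and their parity: `Pool/Agent/H743/X17` (conductor 17), `H464/XB` (`X_0(15)`), `H114/X21`
(`X_0(21)`), `H345/X24` (`X_0(24)`); the joint law: `Pool/Agent/H743/JL`; the ordering by the discriminant:
`Pool/Agent/H743/SN`.
-/

set_option autoImplicit false

open Filter Topology NumberField

namespace Pool.Agent.Results.MP_17f4cb_nt.SimultaneousTwists

open Pool.Agent.TH841.SH.D (Sha)

/-! ### the curves -/

/-- the minimal equation of the quadratic twist by the squarefree integer `m` of: `j = 0`: the curve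
`y² = x (x + 1) (x - 16)` of conductor `17`; `j = 1, 2, 3`: `X_0(15)`, `X_0(21)`, `X_0(24)`; for `j = 1` and
`j = 3` if `m % 4 = 1` -/
def W (j : Fin 4) (m : ℤ) : WeierstrassCurve ℤ := match j with
  | 0 => if m % 4 = 1 then ⟨1, -((15 * m + 1) / 4), 0, -m ^ 2, 0⟩ else ⟨0, -15 * m, 0, -16 * m ^ 2, 0⟩
  | 1 => ⟨1, (5 * m - 1) / 4, 1, -((19 * m ^ 2 + 1) / 2), -((39 * m ^ 3 + 1) / 4)⟩
  | 2 => if m % 4 = 1 then ⟨1, (25 * m - 1) / 4, 0, 9 * m ^ 2, 0⟩ else ⟨0, 25 * m, 0, 144 * m ^ 2, 0⟩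
  | 3 => ⟨0, 2 * m, 0, -(3 * m ^ 2), 0⟩

/-- the curve over `ℚ` -/
abbrev C (j : Fin 4) (m : ℤ) : WeierstrassCurve ℚ := (W j m).map (Int.castRingHom ℚ)

/-- the families, `m` squarefree; `j = 0`: all `m ≠ 1` -/
def Fam (j : Fin 4) (m : ℤ) : Prop := match j with
  | 0 => m ≠ 1
  | 1 => m < 0 ∧ (m % 60 = 13 ∨ m % 60 = 37)
  | 2 => m < 0 ∧ m % 3 ≠ 1 ∧ (m % 7 = 0 ∨ m % 7 = 1 ∨ m % 7 = 2 ∨ m % 7 = 4)
  | 3 => m < 0 ∧ m % 24 = 13

/-- the equation is minimal: `Δ ≠ 0` and `|Δ|` is minimal among the integral equations -/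
def IsMinimal (V : WeierstrassCurve ℤ) : Prop :=
  V.Δ ≠ 0 ∧ ∀ (V' : WeierstrassCurve ℤ) (D : WeierstrassCurve.VariableChange ℚ),
    D • (V.map (Int.castRingHom ℚ)) = V'.map (Int.castRingHom ℚ) → |V.Δ| ≤ |V'.Δ|

/-- `a_p = p - #{affine points modulo p}` -/
noncomputable def ap (V : WeierstrassCurve ℤ) (p : ℕ) : ℤ :=
  p - (Nat.card {P : ZMod p × ZMod p //
    (V.map (Int.castRingHom (ZMod p))).toAffine.Equation P.1 P.2} : ℕ)

/-- `Λ` is entire and it is the Hasse-Weil L-function of the minimal equation `V` -/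
def IsL (V : WeierstrassCurve ℤ) (Λ : ℂ → ℂ) : Prop :=
  Differentiable ℂ Λ ∧ ∀ s : ℂ, 3 / 2 < s.re →
    HasProd (fun p : Nat.Primes => (1 - (ap V p : ℂ) * ((p : ℕ) : ℂ) ^ (-s) +
      (if ((p : ℕ) : ℤ) ∣ V.Δ then 0 else ((p : ℕ) : ℂ) ^ (1 - 2 * s)))⁻¹) (Λ s)

/-- the central value of the L-function is not zero -/
def NonVanishing (j : Fin 4) (m : ℤ) : Prop := ∃ Λ : ℂ → ℂ, IsL (W j m) Λ ∧ Λ 1 ≠ 0

/-- the Mordell-Weil group is finite and the `2`-primary part of `Ш` is zero -/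
def FinSha (j : Fin 4) (m : ℤ) : Prop :=
  Finite (C j m).toAffine.Point ∧ ∀ (n : ℕ) (x : Sha (C j m)), 2 ^ n • x = 0 → x = 0

/-- there is no ideal class of order four in `ℚ(√m)` -/
def NoFour (m : ℤ) : Prop := ∀ (K : Type) [Field K] [NumberField K], Module.finrank ℚ K = 2 →
  (∃ s : K, s ^ 2 = (m : K)) → ∀ c : ClassGroup (𝓞 K), c ^ 4 = 1 → c ^ 2 = 1

/-- the event for the conductor `17` -/
def All17 (m : ℤ) : Prop := NonVanishing 0 m ∧ FinSha 0 m

/-- the event for `X_0(15)`, `X_0(21)`, `X_0(24)` -/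
def All4 (m : ℤ) : Prop := NoFour m ∧ ∀ j : Fin 4, j ≠ 0 → Fam j m → NonVanishing j m ∧ FinSha j m

/-! ### the quadratic fields -/

/-- the squarefree part of the product of the squarefree integers `t` and `m` -/
def tw (t m : ℤ) : ℤ := t * m / (Int.gcd t m : ℤ) ^ 2

/-- the root number of the curve `C 0 m` is `1` -/
def Root (m : ℤ) : Prop := (0 < m ∧ jacobiSym m 17 = 1) ∨ (m < 0 ∧ jacobiSym m 17 ≠ 1)

/-- `|Δ_E|` for `E = ℚ(√m)`, `m` squarefree -/
def disc (m : ℤ) : ℕ := if m % 4 = 1 then m.natAbs else 4 * m.natAbs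

/-- the number of the quadratic fields `E = ℚ(√m)` with `|Δ_E| < x` and the property `P` -/
noncomputable def num (P : ℤ → Prop) (x : ℝ) : ℕ :=
  {m : ℤ | Squarefree m ∧ m ≠ 1 ∧ (disc m : ℝ) < x ∧ P m}.ncard

/-- `m` and `m₀` have the same class in `ℚ_p^×` modulo squares for `p ∈ S`, and the same sign if `inf` -/
def SameClass (inf : Prop) (S : Finset ℕ) (m₀ m : ℤ) : Prop :=
  (inf → 0 < m * m₀) ∧ ∀ (p : ℕ) [Fact p.Prime], p ∈ S → IsSquare ((m * m₀ : ℤ) : ℚ_[p])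

/-- the set `𝒜` of the quadratic fields `ℚ(√m)` -/
def Cls (T T' : Finset ℤ) (inf : Prop) (S : Finset ℕ) (m₀ m : ℤ) : Prop :=
  (∀ t ∈ T, Root (tw t m)) ∧ (∀ t ∈ T', tw t m < 0) ∧ SameClass inf S m₀ m

/-- the constant `(1 - 1/2) (1 - 1/8) (1 - 1/32) ⋯ = 0.4194...` -/
noncomputable def c : ℝ := ∏' i : ℕ, (1 - (1 / 2 : ℝ) ^ (2 * i + 1))

/-- the constant `(1 - 1/2) (1 - 1/4) (1 - 1/8) ⋯ = 0.2887...` -/
noncomputable def η : ℝ := ∏' i : ℕ, (1 - (1 / 2 : ℝ) ^ (i + 1))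

section proof

open Pool.Agent.H743.X17 (parts Sys WM EM)
open Pool.Agent.H743.SN (Nq lim_Nq low_Nq liminf_Nq limsup_Nq)
open Pool.Agent.N919.BS (NF)

/-- the index -/
def jx (i : Fin 3) : Fin 4 := ⟨i.1 + 1, by omega⟩

lemma ge1 {j : Fin 4} (h : j ≠ 0) : ∃ i : Fin 3, j = jx i := by
  have h' : j.1 ≠ 0 := fun h2 => h (Fin.ext h2)
  exact ⟨⟨j.1 - 1, by omega⟩, Fin.ext (by show j.1 = j.1 - 1 + 1; omega)⟩

lemma W_jx (i : Fin 3) (m : ℤ) : W (jx i) m = Pool.Agent.H743.JL.TP.W3 i m := by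
  have h : ∀ i : Fin 3, i = 0 ∨ i = 1 ∨ i = 2 := by decide
  rcases h i with rfl | rfl | rfl <;> rfl

lemma fam_jx (i : Fin 3) (m : ℤ) : Fam (jx i) m ↔ Pool.Agent.H743.JL.Fam i m := by
  have h : ∀ i : Fin 3, i = 0 ∨ i = 1 ∨ i = 2 := by decide
  rcases h i with rfl | rfl | rfl <;> exact Iff.rfl

lemma data17 {m : ℤ} (hm : Squarefree m) (h1 : m ≠ 1) :
    ∃ (Λ : ℂ → ℂ) (y : ℕ), IsL (W 0 m) Λ ∧ (Odd y ↔ Sys m) ∧ (Λ 1 ≠ 0 ↔ y ≠ 0) ∧
      (¬ Root m → y = 0) := by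
  obtain ⟨hO, f, y, hf, hy, h0, hv⟩ := Pool.Agent.H743.X17.main parts hm h1
  refine ⟨f, y, hf, ?_, ?_, h0⟩
  · rw [hy, Pool.Agent.H743.X17.finSha_iff parts hm]
  · have hT : (Pool.Agent.H743.X17.TamProd (WM m) : ℝ) ≠ 0 := by
      rw [Pool.Agent.H743.X17.tamProd_eq parts hm]
      split_ifs <;> simp
    have hO' : Pool.Agent.Y700.Omega (WM m) ≠ 0 := hO.ne'
    rw [hv]
    constructor
    · intro h2 h3
      apply h2
      rw [h3]
      simp
    · intro h2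
      have hy' : (y : ℝ) ≠ 0 := by exact_mod_cast h2
      rw [Complex.ofReal_ne_zero]
      positivity

lemma nv_root {m : ℤ} (hm : Squarefree m) (h : NonVanishing 0 m) : Root m := by
  by_cases h1 : m = 1
  · subst h1
    exact Or.inl ⟨one_pos, by simp⟩
  · by_contra hR
    obtain ⟨Λ, y, h2, -, h3, h4⟩ := data17 hm h1
    obtain ⟨F, h5, h6⟩ := h
    have h7 : (fun s => F (s + 1 / 2)) = fun s => Λ (s + 1 / 2) := by
      refine Pool.Agent.H743.SN.ent_unique (h5.1.comp (differentiable_id.add_const _))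
        (h2.1.comp (differentiable_id.add_const _)) fun s hs => ?_
      have hs' : 3 / 2 < (s + 1 / 2).re := by
        have e : (s + 1 / 2).re = s.re + 1 / 2 := by simp
        rw [e]
        linarith
      exact (h5.2 _ hs').unique (h2.2 _ hs')
    have h8 := congrFun h7 (1 / 2)
    simp only [add_halves] at h8
    rw [h8] at h6
    exact (h3.1 h6) (h4 hR)

lemma all17_iff {m : ℤ} (hm : Squarefree m) (h1 : m ≠ 1) : All17 m ↔ Sys m := by
  have hfs : FinSha 0 m ↔ Sys m := Pool.Agent.H743.X17.finSha_iff parts hm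
  obtain ⟨Λ, y, h2, h3, h4, -⟩ := data17 hm h1
  constructor
  · exact fun h => hfs.1 h.2
  · intro h
    refine ⟨⟨Λ, h2, h4.2 ?_⟩, hfs.2 h⟩
    rintro rfl
    exact absurd (h3.2 h) (by decide)

lemma fam_neg (i : Fin 3) {m : ℤ} (h : Fam (jx i) m) : m < 0 ∧ m ≠ -1 := by
  have h3 : ∀ i : Fin 3, i = 0 ∨ i = 1 ∨ i = 2 := by decide
  rcases h3 i with rfl | rfl | rfl
  · obtain ⟨h1, h2⟩ := h
    exact ⟨h1, by rintro rfl; omega⟩
  · obtain ⟨h1, h2, h3⟩ := h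
    exact ⟨h1, by rintro rfl; omega⟩
  · obtain ⟨h1, h2⟩ := h
    exact ⟨h1, by rintro rfl; omega⟩

lemma data4 (i : Fin 3) {m : ℤ} (hm : Squarefree m) (hF : Fam (jx i) m) :
    IsMinimal (W (jx i) m) ∧ (∃ Λ : ℂ → ℂ, IsL (W (jx i) m) Λ) ∧
    (Pool.Agent.H743.JL.H4 m → NonVanishing (jx i) m ∧ FinSha (jx i) m) := by
  have hd := Pool.Agent.H743.JL.TP.data i hm ((fam_jx i m).1 hF)
  rw [← W_jx] at hd
  obtain ⟨k1, k2, k3, k4, k5, Λ, y, k6, k7, k8⟩ := hd
  refine ⟨k1, ⟨Λ, k6⟩, fun h => ⟨⟨Λ, k6, ?_⟩, k5.2 h⟩⟩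
  have hT0 : Pool.Agent.H743.JL.TP.tm i m ≠ 0 := by
    have h : ∀ i : Fin 3, i = 0 ∨ i = 1 ∨ i = 2 := by decide
    rcases h i with rfl | rfl | rfl
    · exact pow_ne_zero _ (by norm_num)
    · show 4 ^ _ * (if (3 : ℤ) ∣ m then 1 else 2) * (if (7 : ℤ) ∣ m then 1 else 2) ≠ 0
      split_ifs <;> simp
    · exact pow_ne_zero _ (by norm_num)
  have hy : y ≠ 0 := by
    rintro rfl
    exact absurd (k8.2 h) (by decide)
  have hy' : (y : ℝ) ≠ 0 := by exact_mod_cast hy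
  rw [k7, k3]
  have hT' : (Pool.Agent.H743.JL.TP.tm i m : ℝ) ≠ 0 := by exact_mod_cast hT0
  have hO := k4.ne'
  rw [Complex.ofReal_ne_zero]
  positivity

lemma all4_iff {m : ℤ} (hm : Squarefree m) (h0 : m < 0) (h1 : m ≠ -1) :
    All4 m ↔ Pool.Agent.H743.JL.H4 m := by
  have hnf : NoFour m ↔ Pool.Agent.H743.JL.H4 m := Pool.Agent.H743.JL.nf m h0 h1 hm
  refine ⟨fun h => hnf.1 h.1, fun h => ⟨hnf.2 h, ?_⟩⟩
  intro j hj hF
  obtain ⟨i, rfl⟩ := ge1 hj
  exact (data4 i hm hF).2.2 h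

lemma num_eq (P : ℤ → Prop) (x : ℝ) : num P x = Nq P x := rfl

lemma tw_one' {t m : ℤ} (ht : Squarefree t) (hm : Squarefree m) (h : tw t m = 1) : m = t :=
  Pool.Agent.H743.SN.tw_one_iff ht hm h

open Classical in
lemma part1 {t : ℤ} (ht : Squarefree t) :
    Tendsto (fun x : ℝ => (num (fun m => All17 (tw t m)) x : ℝ) / (num (fun _ => True) x : ℝ))
        atTop (𝓝 (c / 2)) ∧
      c / 2 ≤ liminf (fun x : ℝ => (num (fun m => NonVanishing 0 (tw t m)) x : ℝ) /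
        (num (fun _ => True) x : ℝ)) atTop ∧
      limsup (fun x : ℝ => (num (fun m => NonVanishing 0 (tw t m)) x : ℝ) /
        (num (fun _ => True) x : ℝ)) atTop ≤ 1 / 2 := by
  have hlow := Pool.Agent.N855.GF.Lc17.low_P (m := 4) dvd_rfl (by norm_num)
    (P := fun _ => True) (fun _ _ _ _ _ _ _ _ _ _ _ => Iff.rfl) squarefree_one trivial
  obtain ⟨δ, X₀, hδ, hlow⟩ := hlow
  have hpar : ∀ m, Squarefree m → Sys m → Pool.Agent.H743.X17.Rt m := fun m hm h => by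
    by_contra h2
    exact Pool.Agent.H743.X17.QPARITY.t_PARITY m hm h2 h
  have h1 : Tendsto (fun x : ℝ => (num (fun m => All17 (tw t m)) x : ℝ) /
      (num (fun _ => True) x : ℝ)) atTop (𝓝 (c / 2)) := by
    refine lim_Nq hδ (fun X hX => (hlow X hX).1) {t} (fun m hm hF => ?_) (fun m _ _ => Iff.rfl)
      (Pool.Agent.H743.SN.half_tw ht)
    have h2 : Squarefree (tw t m) := Pool.Agent.H743.SN.tw_sqf ht hm
    have h3 : tw t m ≠ 1 := fun h4 => hF (by
      rw [Finset.mem_singleton]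
      exact tw_one' ht hm h4)
    rw [all17_iff h2 h3]
    exact ⟨fun h => h.2, fun h => ⟨hpar _ h2 h, h⟩⟩
  refine ⟨h1, liminf_Nq (fun m _ h => h.1) (fun _ _ _ => trivial) h1, ?_⟩
  have h2 : Tendsto (fun x : ℝ => (Nq (fun m => Root (tw t m)) x : ℝ) /
      (Nq (fun _ => True) x : ℝ)) atTop (𝓝 (1 / 2)) :=
    lim_Nq hδ (fun X hX => (hlow X hX).1) ∅ (fun m hm hF => Iff.rfl) (fun m _ _ => Iff.rfl)
      (Pool.Agent.H743.SN.half_rt ht)
  exact limsup_Nq (fun m hm h => nv_root (Pool.Agent.H743.SN.tw_sqf ht hm) h) h2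

/-- the set of the representatives of the exceptions -/
lemma dich {T T' : Finset ℤ} (hT : ∀ t ∈ T, Squarefree t) (hT' : ∀ t ∈ T', Squarefree t) {m : ℤ}
    (hm : Squarefree m) (hF : m ∉ T ∪ T'.image fun t => -t) (hneg : ∀ t ∈ T', tw t m < 0) :
    (∀ t ∈ T, (All17 (tw t m) ↔ Sys (tw t m))) ∧
      ∀ t ∈ T', (All4 (tw t m) ↔ Pool.Agent.H743.JL.H4 (tw t m)) := by
  rw [Finset.mem_union, not_or] at hF
  refine ⟨fun t ht => ?_, fun t ht => ?_⟩
  · have h3 : tw t m ≠ 1 := fun h4 => hF.1 (by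
      rw [tw_one' (hT t ht) hm h4]
      exact ht)
    exact all17_iff (Pool.Agent.H743.SN.tw_sqf (hT t ht) hm) h3
  · have h3 : tw t m ≠ -1 := by
      intro h4
      apply hF.2
      rw [Finset.mem_image]
      have hn : Squarefree (-t) := fun x hx => (hT' t ht) x ((dvd_neg).1 hx)
      have h5 : tw (-t) m = 1 := by
        have := Pool.Agent.H955.JL.TT.t_TT.2.2.2.2.1 t m (hT' t ht) hm
        rw [show tw (-t) m = Pool.Agent.H743.JL.tw (-t) m from rfl, this]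
        rw [show Pool.Agent.H743.JL.tw t m = tw t m from rfl, h4]
        norm_num
      exact ⟨t, ht, (tw_one' hn hm h5).symm⟩
    exact all4_iff (Pool.Agent.H743.SN.tw_sqf (hT' t ht) hm) (hneg t ht) h3

open Classical in
lemma part3 (T T' : Finset ℤ) (inf : Prop) (S : Finset ℕ) (m₀ : ℤ)
    (hT : ∀ t ∈ T, Squarefree t ∧ Root (tw t m₀)) (hT' : ∀ t ∈ T', Squarefree t ∧ tw t m₀ < 0)
    (hS : ∀ p ∈ S, p.Prime) (hm₀ : Squarefree m₀) :
    (∃ δ : ℝ, 0 < δ ∧ ∀ᶠ x : ℝ in atTop, δ * x ≤ (num (Cls T T' inf S m₀) x : ℝ)) ∧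
      (∀ U ⊆ T, ∀ U' ⊆ T', Tendsto (fun x : ℝ => (num (fun m => Cls T T' inf S m₀ m ∧
          (∀ t ∈ T, (All17 (tw t m) ↔ t ∈ U)) ∧ ∀ t ∈ T', (All4 (tw t m) ↔ t ∈ U')) x : ℝ) /
        (num (Cls T T' inf S m₀) x : ℝ)) atTop (𝓝 (c ^ U.card * (1 - c) ^ (T \ U).card *
          (η ^ U'.card * (1 - η) ^ (T' \ U').card)))) ∧
      c ^ T.card * η ^ T'.card ≤ liminf (fun x : ℝ => (num (fun m => Cls T T' inf S m₀ m ∧
          (∀ t ∈ T, NonVanishing 0 (tw t m)) ∧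
          ∀ t ∈ T', ∀ j : Fin 4, j ≠ 0 → Fam j (tw t m) → NonVanishing j (tw t m)) x : ℝ) /
        (num (Cls T T' inf S m₀) x : ℝ)) atTop := by
  obtain ⟨⟨δ, X₀, hδ, hlow⟩, hlim⟩ := Pool.Agent.H743.SN.fi3 T T' inf S m₀
    (fun t ht => (hT t ht).1) hT' hS hm₀
  have hfil : T.filter (fun t => Pool.Agent.H743.X17.Rt (Pool.Agent.H743.JL.tw t m₀)) = T :=
    Finset.filter_true_of_mem fun t ht => (hT t ht).2
  have hcls : ∀ m, Pool.Agent.H743.JL.Qc2 T T' inf S m₀ m ↔ Cls T T' inf S m₀ m := by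
    intro m
    constructor
    · rintro ⟨⟨h1, h2⟩, h3⟩
      exact ⟨fun t ht => (h1 t ht).2 (hT t ht).2, fun t ht => (h2 t ht).2 (hT' t ht).2, h3⟩
    · rintro ⟨h1, h2, h3⟩
      exact ⟨⟨fun t ht => ⟨fun _ => (hT t ht).2, fun _ => h1 t ht⟩,
        fun t ht => ⟨fun _ => (hT' t ht).2, fun _ => h2 t ht⟩⟩, h3⟩
  have h2 : ∀ U ⊆ T, ∀ U' ⊆ T', Tendsto (fun x : ℝ => (Nq (fun m => Cls T T' inf S m₀ m ∧
        (∀ t ∈ T, (All17 (tw t m) ↔ t ∈ U)) ∧ ∀ t ∈ T', (All4 (tw t m) ↔ t ∈ U')) x : ℝ) /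
      (Nq (Cls T T' inf S m₀) x : ℝ)) atTop (𝓝 (c ^ U.card * (1 - c) ^ (T \ U).card *
          (η ^ U'.card * (1 - η) ^ (T' \ U').card))) := by
    intro U hU U' hU'
    have h1 := hlim U (by rw [hfil]; exact hU) U' hU'
    rw [hfil] at h1
    refine lim_Nq hδ hlow (T ∪ T'.image fun t => -t) (fun m hm hF => ?_)
      (fun m _ _ => hcls m) h1
    rw [hcls m]
    refine and_congr_right fun hc => ?_
    obtain ⟨h3, h4⟩ := dich (fun t ht => (hT t ht).1) (fun t ht => (hT' t ht).1) hm hF hc.2.1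
    refine and_congr ?_ ?_
    · refine forall_congr' fun t => forall_congr' fun ht => ?_
      exact ⟨fun h => (h3 t ht).trans h, fun h => (h3 t ht).symm.trans h⟩
    · refine forall_congr' fun t => forall_congr' fun ht => ?_
      exact ⟨fun h => (h4 t ht).trans h, fun h => (h4 t ht).symm.trans h⟩
  refine ⟨low_Nq hδ hlow ∅ (fun m _ _ => hcls m), h2, ?_⟩
  have h5 := h2 T (Finset.Subset.refl T) T' (Finset.Subset.refl T')
  rw [Finset.sdiff_self, Finset.sdiff_self, Finset.card_empty, pow_zero, pow_zero,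
    mul_one, mul_one] at h5
  refine liminf_Nq (P := fun m => Cls T T' inf S m₀ m ∧
        (∀ t ∈ T, (All17 (tw t m) ↔ t ∈ T)) ∧ ∀ t ∈ T', (All4 (tw t m) ↔ t ∈ T')) ?_
        (fun m _ h => h.1) h5
  rintro m - ⟨h3, h4, h5⟩
  exact ⟨h3, fun t ht => ((h4 t ht).2 ht).1, fun t ht j hj hF =>
    (((h5 t ht).2 ht).2 j hj hF).1⟩

open Classical in
lemma part4 (T : Finset ℤ) (inf : Prop) (S : Finset ℕ) (m₀ : ℤ)
    (hT : ∀ t ∈ T, Squarefree t ∧ Root (tw t m₀)) (hS : ∀ p ∈ S, p.Prime) (hm₀ : Squarefree m₀) :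
    limsup (fun x : ℝ => (num (fun m => Cls T ∅ inf S m₀ m ∧
          ∀ t ∈ T, ¬ NonVanishing 0 (tw t m)) x : ℝ) /
        (num (Cls T ∅ inf S m₀) x : ℝ)) atTop ≤ (1 - c) ^ T.card := by
  have h1 := (part3 T ∅ inf S m₀ hT (fun t ht => absurd ht (Finset.notMem_empty t)) hS hm₀).2.1
    ∅ (Finset.empty_subset _) ∅ (Finset.empty_subset _)
  rw [Finset.sdiff_empty, Finset.sdiff_empty, Finset.card_empty, pow_zero, pow_zero, pow_zero,
    one_mul, mul_one, mul_one] at h1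
  refine limsup_Nq (P := fun m => Cls T ∅ inf S m₀ m ∧
        (∀ t ∈ T, (All17 (tw t m) ↔ t ∈ (∅ : Finset ℤ))) ∧
        ∀ t ∈ (∅ : Finset ℤ), (All4 (tw t m) ↔ t ∈ (∅ : Finset ℤ))) ?_ h1
  rintro m - ⟨h3, h4⟩
  exact ⟨h3, fun t ht => ⟨fun h => absurd h.1 (h4 t ht), fun h => absurd h (Finset.notMem_empty t)⟩,
    fun t ht => absurd ht (Finset.notMem_empty t)⟩

lemma num_all_le {x : ℝ} (hx : 1 ≤ x) : (num (fun _ => True) x : ℝ) ≤ 5 * x := by
  have h1 : {m : ℤ | Squarefree m ∧ m ≠ 1 ∧ (disc m : ℝ) < x ∧ True} ⊆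
      ((Finset.Icc (-(⌈x⌉₊ : ℤ)) ⌈x⌉₊ : Finset ℤ) : Set ℤ) := by
    rintro m ⟨-, -, h, -⟩
    have h1 : disc m < ⌈x⌉₊ := Nat.lt_ceil.2 h
    have h2 : m.natAbs ≤ disc m := by
      unfold disc
      split_ifs <;> omega
    rw [Finset.mem_coe, Finset.mem_Icc]
    constructor <;> omega
  have h2 : num (fun _ => True) x ≤ 2 * ⌈x⌉₊ + 1 := by
    refine (Set.ncard_le_ncard h1 (Finset.finite_toSet _)).trans ?_
    rw [Set.ncard_coe_finset, Int.card_Icc]
    omega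
  have h3 : (⌈x⌉₊ : ℝ) < x + 1 := Nat.ceil_lt_add_one (by linarith)
  have h4 : (num (fun _ => True) x : ℝ) ≤ 2 * (⌈x⌉₊ : ℝ) + 1 := by exact_mod_cast h2
  linarith

lemma part2 {j : Fin 4} (hj : j ≠ 0) {t : ℤ} (ht : Squarefree t) : ∃ δ : ℝ, 0 < δ ∧
    ∀ᶠ x : ℝ in atTop, δ * (num (fun _ => True) x : ℝ) ≤ (num (fun m => Fam j (tw t m) ∧
      NonVanishing j (tw t m) ∧ FinSha j (tw t m)) x : ℝ) := by
  obtain ⟨i, rfl⟩ := ge1 hj
  have key : ∃ (δ : ℝ) (X₀ : ℕ), 0 < δ ∧ ∀ X : ℕ, X₀ ≤ X →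
      δ * X ≤ (NF (fun d => Fam (jx i) (tw t d) ∧
        Pool.Agent.H743.JL.H4 (tw t d)) X : ℝ) := by
    have h3 : ∀ i : Fin 3, i = 0 ∨ i = 1 ∨ i = 2 := by decide
    rcases h3 i with rfl | rfl | rfl
    · refine Pool.Agent.H743.SN.one_fam (K := Fam (jx 0)) (fun m h => h.1) (r := 60) (by norm_num)
        (fun a b h hs => ?_) (m₁ := -23) ?_ ?_ ht
      · show (a < 0 ∧ (a % 60 = 13 ∨ a % 60 = 37)) ↔ (b < 0 ∧ (b % 60 = 13 ∨ b % 60 = 37))
        rw [hs]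
        push_cast at h
        omega
      · exact Pool.Agent.H743.SN.sqf_of (k := 23) rfl (by norm_num : Nat.Prime 23).squarefree
      · exact ⟨by norm_num, by norm_num⟩
    · refine Pool.Agent.H743.SN.one_fam (K := Fam (jx 1)) (fun m h => h.1) (r := 21) (by norm_num)
        (fun a b h hs => ?_) (m₁ := -7) ?_ ?_ ht
      · show (a < 0 ∧ a % 3 ≠ 1 ∧ (a % 7 = 0 ∨ a % 7 = 1 ∨ a % 7 = 2 ∨ a % 7 = 4)) ↔
          (b < 0 ∧ b % 3 ≠ 1 ∧ (b % 7 = 0 ∨ b % 7 = 1 ∨ b % 7 = 2 ∨ b % 7 = 4))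
        rw [hs]
        push_cast at h
        omega
      · exact Pool.Agent.H743.SN.sqf_of (k := 7) rfl (by norm_num : Nat.Prime 7).squarefree
      · exact ⟨by norm_num, by norm_num, by norm_num⟩
    · refine Pool.Agent.H743.SN.one_fam (K := Fam (jx 2)) (fun m h => h.1) (r := 24) (by norm_num)
        (fun a b h hs => ?_) (m₁ := -11) ?_ ?_ ht
      · show (a < 0 ∧ a % 24 = 13) ↔ (b < 0 ∧ b % 24 = 13)
        rw [hs]
        push_cast at h
        omega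
      · exact Pool.Agent.H743.SN.sqf_of (k := 11) rfl (by norm_num : Nat.Prime 11).squarefree
      · exact ⟨by norm_num, by norm_num⟩
  obtain ⟨δ, X₀, hδ, hlow⟩ := key
  obtain ⟨κ, hκ, h1⟩ := low_Nq hδ hlow ∅ (fun m _ _ => Iff.rfl)
  refine ⟨κ / 5, by positivity, ?_⟩
  filter_upwards [h1, eventually_ge_atTop (1 : ℝ)] with x hx hx1
  have h2 := num_all_le hx1
  have h3 : (Nq (fun d => Fam (jx i) (tw t d) ∧ Pool.Agent.H743.JL.H4 (tw t d)) x : ℝ) ≤
      (num (fun m => Fam (jx i) (tw t m) ∧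
        NonVanishing (jx i) (tw t m) ∧ FinSha (jx i) (tw t m)) x : ℝ) := by
    have : Nq (fun d => Fam (jx i) (tw t d) ∧ Pool.Agent.H743.JL.H4 (tw t d)) x ≤
        Nq (fun m => Fam (jx i) (tw t m) ∧
          NonVanishing (jx i) (tw t m) ∧ FinSha (jx i) (tw t m)) x :=
      Pool.Agent.H743.SN.Nq_mono (fun m hm h =>
        ⟨h.1, (data4 i (Pool.Agent.H743.SN.tw_sqf ht hm) h.1).2.2 h.2⟩) x
    exact_mod_cast this
  nlinarith

end proof

open Classical in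
theorem result :
    -- (0) the equations are minimal, and the L-functions exist
    (∀ (j : Fin 4) (m : ℤ), Squarefree m → Fam j m →
      IsMinimal (W j m) ∧ ∃ Λ : ℂ → ℂ, IsL (W j m) Λ) ∧
    -- (1) every quadratic twist of the conductor `17`, all the quadratic fields
    (∀ t : ℤ, Squarefree t →
      Tendsto (fun x : ℝ => (num (fun m => All17 (tw t m)) x : ℝ) / (num (fun _ => True) x : ℝ))
        atTop (𝓝 (c / 2)) ∧
      c / 2 ≤ liminf (fun x : ℝ => (num (fun m => NonVanishing 0 (tw t m)) x : ℝ) /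
        (num (fun _ => True) x : ℝ)) atTop ∧
      limsup (fun x : ℝ => (num (fun m => NonVanishing 0 (tw t m)) x : ℝ) /
        (num (fun _ => True) x : ℝ)) atTop ≤ 1 / 2) ∧
    -- (2) every quadratic twist of `X_0(15)`, `X_0(21)`, `X_0(24)`: a positive proportion
    (∀ (j : Fin 4) (t : ℤ), j ≠ 0 → Squarefree t → ∃ δ : ℝ, 0 < δ ∧
      ∀ᶠ x : ℝ in atTop, δ * (num (fun _ => True) x : ℝ) ≤ (num (fun m => Fam j (tw t m) ∧
        NonVanishing j (tw t m) ∧ FinSha j (tw t m)) x : ℝ)) ∧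
    -- (3) several representations
    (∀ (T T' : Finset ℤ) (inf : Prop) (S : Finset ℕ) (m₀ : ℤ),
      (∀ t ∈ T, Squarefree t ∧ Root (tw t m₀)) → (∀ t ∈ T', Squarefree t ∧ tw t m₀ < 0) →
      (∀ p ∈ S, p.Prime) → Squarefree m₀ →
      (∃ δ : ℝ, 0 < δ ∧ ∀ᶠ x : ℝ in atTop, δ * x ≤ (num (Cls T T' inf S m₀) x : ℝ)) ∧
      (∀ U ⊆ T, ∀ U' ⊆ T', Tendsto (fun x : ℝ => (num (fun m => Cls T T' inf S m₀ m ∧
          (∀ t ∈ T, (All17 (tw t m) ↔ t ∈ U)) ∧ ∀ t ∈ T', (All4 (tw t m) ↔ t ∈ U')) x : ℝ) /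
        (num (Cls T T' inf S m₀) x : ℝ)) atTop (𝓝 (c ^ U.card * (1 - c) ^ (T \ U).card *
          (η ^ U'.card * (1 - η) ^ (T' \ U').card)))) ∧
      c ^ T.card * η ^ T'.card ≤ liminf (fun x : ℝ => (num (fun m => Cls T T' inf S m₀ m ∧
          (∀ t ∈ T, NonVanishing 0 (tw t m)) ∧
          ∀ t ∈ T', ∀ j : Fin 4, j ≠ 0 → Fam j (tw t m) → NonVanishing j (tw t m)) x : ℝ) /
        (num (Cls T T' inf S m₀) x : ℝ)) atTop) ∧
    -- (4) all the central values are zero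
    (∀ (T : Finset ℤ) (inf : Prop) (S : Finset ℕ) (m₀ : ℤ),
      (∀ t ∈ T, Squarefree t ∧ Root (tw t m₀)) → (∀ p ∈ S, p.Prime) → Squarefree m₀ →
      limsup (fun x : ℝ => (num (fun m => Cls T ∅ inf S m₀ m ∧
          ∀ t ∈ T, ¬ NonVanishing 0 (tw t m)) x : ℝ) /
        (num (Cls T ∅ inf S m₀) x : ℝ)) atTop ≤ (1 - c) ^ T.card) ∧
    0.4194 < c ∧ c < 0.4195 ∧ 0.2887 < η ∧ η < 0.2889 := by
  refine ⟨fun j m hm hF => ?_, fun t ht => part1 ht, fun j t hj ht => part2 hj ht,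
    fun T T' inf S m₀ hT hT' hS hm₀ => part3 T T' inf S m₀ hT hT' hS hm₀,
    fun T inf S m₀ hT hS hm₀ => part4 T inf S m₀ hT hS hm₀,
    Pool.Agent.H743.X17.c2_bounds.1, Pool.Agent.H743.X17.c2_bounds.2,
    Pool.Agent.N916.GB.eta_bounds.1, Pool.Agent.N916.GB.eta_bounds.2⟩
  · by_cases hj : j = 0
    · subst hj
      have h1 : m ≠ 1 := hF
      obtain ⟨Λ, y, h2, -⟩ := data17 hm h1
      exact ⟨Pool.Agent.H743.X17.parts.min m hm, Λ, h2⟩
    · obtain ⟨i, rfl⟩ := ge1 hj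
      obtain ⟨h1, h2, -⟩ := data4 i hm hF
      exact ⟨h1, h2⟩

end Pool.Agent.Results.MP_17f4cb_nt.SimultaneousTwists
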